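import Mathlib
import Pool.Agent.H26.FoldOperator

/-!
# A non-orthogonal Riesz wavelet set on `ℝ` that is not a multiplicative multi-tile

We take `G = ℝ` (so `Aut(G)` is the group of dilations `x ↦ a x`, `a ∈ ℝˣ`, with modulus `|a|`),
`m = 1`, `Ω = [1,2) ∪ (-2,-3/2)`, `A = {±2^j : j ∈ ℤ}` and `Λ = ℤ`.  The wavelet system is a
non-orthogonal Riesz basis of `L²(ℝ)`, but the multiplicity function `∑_{a ∈ A} 1_{aΩ}` is not
a.e. constant: it equals `1` on `(1,3/2)` and `2` on `(3/2,2)`.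
-/

open MeasureTheory FourierTransform Complex

namespace Pool.Agent.Results.MP_38bcdd_an.RieszWaveletNotMultiTiling

/-- A family `f` in a complex inner product space `H` is a Riesz basis if it is the image of an
orthonormal (Hilbert) basis of `H` under a bounded invertible linear operator of `H`. -/
def IsRieszBasis {ι H : Type*} [NormedAddCommGroup H] [InnerProductSpace ℂ H] (f : ι → H) : Prop :=
  ∃ (b : HilbertBasis ι ℂ H) (T : H ≃L[ℂ] H), ∀ i, f i = T (b i)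

/-- The function `x ↦ |a|^{1/2} ψ (a x - l)`. -/
noncomputable def waveletFun (ψ : ℝ → ℂ) (l : ℝ) (a : ℝˣ) : ℝ → ℂ :=
  fun x => ((Real.sqrt |(a : ℝ)| : ℝ) : ℂ) * ψ ((a : ℝ) * x - l)

/-- `F` is the wavelet system of the sets `Ω i`, the dilations `A` and the translations `Λ i`:
there are `ψ i ∈ L²(ℝ)` whose `L²` Fourier transform is the indicator function of `Ω i`, and
`F (i, l, a)` is (the class of) `x ↦ |a|^{1/2} ψ i (a x - l)`. -/
def IsWaveletSystem {m : ℕ} (Ω : Fin m → Set ℝ) (A : Set ℝˣ) (Λ : Fin m → Set ℝ)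
    (F : (Σ i : Fin m, Λ i × A) → Lp ℂ 2 (volume : Measure ℝ)) : Prop :=
  ∃ ψ : Fin m → Lp ℂ 2 (volume : Measure ℝ),
    (∀ i, ((𝓕 (ψ i) : Lp ℂ 2 (volume : Measure ℝ)) : ℝ → ℂ) =ᵐ[volume]
      (Ω i).indicator fun _ => 1) ∧
    ∀ (i : Fin m) (l : Λ i) (a : A), (F ⟨i, (l, a)⟩ : ℝ → ℂ) =ᵐ[volume] waveletFun (ψ i) l a

/-- The dilates `a Ω`, `a ∈ A`, cover almost every point of `ℝ` exactly `k` times. -/
def IsMultiplicativeTiling (Ω : Set ℝ) (A : Set ℝˣ) (k : ℕ) : Prop :=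
  ∀ᵐ ξ : ℝ, {a : ℝˣ | a ∈ A ∧ ξ ∈ (fun η : ℝ => (a : ℝ) * η) '' Ω}.encard = k

/-! ### The example -/

open Pool.Agent.H26

/-- the example set -/
def Om : Set ℝ := Set.Ico 1 2 ∪ Set.Ioo (-2) (-(3 / 2))

/-- the integers in `ℝ` -/
def Lam : Set ℝ := Set.range fun n : ℤ => (n : ℝ)

theorem measurableSet_Om : MeasurableSet Om := measurableSet_Ico.union measurableSet_Ioo

theorem volume_Om_lt : volume Om < ⊤ := by
  refine lt_of_le_of_lt (measure_union_le _ _) ?_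
  simp only [Real.volume_Ico, Real.volume_Ioo]
  exact ENNReal.add_lt_top.mpr ⟨ENNReal.ofReal_lt_top, ENNReal.ofReal_lt_top⟩

theorem volume_Om_pos : 0 < volume Om := by
  refine lt_of_lt_of_le ?_ (measure_mono Set.subset_union_left)
  rw [Real.volume_Ico]
  simp

/-- pointwise identity behind the fold operator -/
theorem fold_B (n : ℤ) {a : ℝˣ} (ha : a ∈ Dil) (ξ : ℝ) :
    B (Set.Ico 1 2) n a ξ + E.indicator (fun ξ => B (Set.Ico 1 2) n a (sigma ξ)) ξ
      = B Om n a ξ := by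
  have ha0 : (a : ℝ) ≠ 0 := a.ne_zero
  by_cases h1 : ξ / (a : ℝ) ∈ Set.Ioo (-2 : ℝ) (-(3 / 2))
  · -- `ξ` in the folded part
    have h2 : ξ / ((-a : ℝˣ) : ℝ) ∈ Set.Ioo (3 / 2 : ℝ) 2 := by
      have : ξ / ((-a : ℝˣ) : ℝ) = -(ξ / a) := by
        push_cast
        rw [div_neg]
      rw [this]
      exact ⟨by linarith [h1.2], by linarith [h1.1]⟩
    have hE : ξ ∈ E := mem_E_iff.mpr ⟨-a, neg_mem_Dil ha, h2⟩
    rw [Set.indicator_of_mem hE, sigma_of_mem (neg_mem_Dil ha) h2]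
    have h3 : ξ / (a : ℝ) ∉ Set.Ico (1 : ℝ) 2 := fun h => by linarith [h.1, h1.2]
    have h4 : ξ / (a : ℝ) ∈ Om := Or.inr h1
    have h5 : (ξ - 3 * ((-a : ℝˣ) : ℝ)) / (a : ℝ) = ξ / a + 3 := by
      push_cast
      field_simp
      ring
    unfold B
    rw [h5, Set.indicator_of_notMem h3, Set.indicator_of_mem h4, Set.indicator_of_mem
      (show ξ / (a : ℝ) + 3 ∈ Set.Ico (1 : ℝ) 2 from ⟨by linarith [h1.1], by linarith [h1.2]⟩)]
    have hexp : Complex.exp (-(2 * Real.pi * Complex.I * ((n * (ξ / a + 3) : ℝ) : ℂ))) =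
        Complex.exp (-(2 * Real.pi * Complex.I * ((n * (ξ / a) : ℝ) : ℂ))) := by
      rw [Complex.exp_eq_exp_iff_exists_int]
      exact ⟨-(3 * n), by push_cast; ring⟩
    rw [hexp]
    ring
  · have h2 : E.indicator (fun ξ => B (Set.Ico 1 2) n a (sigma ξ)) ξ = 0 := by
      by_cases hE : ξ ∈ E
      · rw [Set.indicator_of_mem hE]
        obtain ⟨b, hb, h3⟩ := mem_E_iff.mp hE
        have h4 := sigma_div hb h3
        have h5 : sigma ξ / (a : ℝ) ∉ Set.Ico (1 : ℝ) 2 := by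
          intro h6
          have h7 : -b = a := dil_unique (neg_mem_Dil hb) ha (ξ := sigma ξ)
            ⟨h4.1.le, by linarith [h4.2]⟩ h6
          apply h1
          rw [← h7]
          have : ξ / ((-b : ℝˣ) : ℝ) = -(ξ / b) := by
            push_cast
            rw [div_neg]
          rw [this]
          exact ⟨by linarith [h3.2], by linarith [h3.1]⟩
        unfold B
        rw [Set.indicator_of_notMem h5]
        ring
      · rw [Set.indicator_of_notMem hE]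
    rw [h2, add_zero]
    unfold B
    congr 2
    by_cases h3 : ξ / (a : ℝ) ∈ Set.Ico (1 : ℝ) 2
    · rw [Set.indicator_of_mem h3, Set.indicator_of_mem (show ξ / (a : ℝ) ∈ Om from Or.inl h3)]
    · rw [Set.indicator_of_notMem h3, Set.indicator_of_notMem]
      rintro (h4 | h4)
      · exact h3 h4
      · exact h1 h4

abbrev idx : Type := Σ _ : Fin 1, Lam × Dil

/-- the orthonormal basis on the frequency side -/
noncomputable def e (i : idx) : Lp ℂ 2 (volume : Measure ℝ) :=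
  (memLp_B (measurableSet_Ico (a := (1 : ℝ)) (b := 2)) (by simp) (i.2.1 : ℝ)
    (i.2.2 : ℝˣ).ne_zero 2).toLp

theorem inner_e (i j : idx) [Decidable (i = j)] : inner ℂ (e i) (e j) = if i = j then 1 else 0 := by
  unfold e
  rw [toLp_inner]
  obtain ⟨i0, ⟨l, ⟨n, hn⟩⟩, a⟩ := i
  obtain ⟨j0, ⟨l', ⟨n', hn'⟩⟩, a'⟩ := j
  simp only at hn hn'
  subst hn hn'
  have h0 : i0 = j0 := Subsingleton.elim _ _
  subst h0
  by_cases haa : a = a'
  · subst haa
    have := inner_B_same n n' (a : ℝˣ).ne_zero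
    simp only
    rw [this]
    by_cases hn : n = n'
    · subst hn
      simp
    · rw [if_neg hn, if_neg]
      intro h
      apply hn
      have h' := congrArg (fun u : idx => (u.2.1 : ℝ)) h
      simpa using h'
  · have := inner_B_diff a.2 a'.2 (fun h => haa (Subtype.ext h)) (n : ℝ) (n' : ℝ)
    simp only
    rw [this, if_neg]
    intro h
    apply haa
    exact congrArg (fun u : idx => u.2.2) h

theorem orthonormal_e : Orthonormal ℂ e := by
  classical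
  rw [orthonormal_iff_ite]
  intro i j
  exact inner_e i j

theorem e_complete : (Submodule.span ℂ (Set.range e))ᗮ = ⊥ := by
  rw [Submodule.eq_bot_iff]
  intro f hf
  rw [Submodule.mem_orthogonal] at hf
  have h1 : (f : ℝ → ℂ) =ᵐ[volume] 0 := by
    apply ae_zero_of_orthogonal (Lp.memLp f)
    intro a ha n
    have h2 := hf (e ⟨0, ⟨(n : ℝ), ⟨n, rfl⟩⟩, ⟨a, ha⟩⟩) (Submodule.subset_span ⟨_, rfl⟩)
    rw [L2.inner_def] at h2
    rw [← h2]
    apply integral_congr_ae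
    have h3 := MemLp.coeFn_toLp (memLp_B (measurableSet_Ico (a := (1 : ℝ)) (b := 2)) (by simp)
      (n : ℝ) a.ne_zero 2)
    filter_upwards [h3] with ξ hξ
    unfold e
    simp only
    rw [hξ, RCLike.inner_apply, mul_comm]
  rw [Lp.eq_zero_iff_ae_eq_zero]
  exact h1

/-- the Hilbert basis on the frequency side -/
noncomputable def b0 : HilbertBasis idx ℂ (Lp ℂ 2 (volume : Measure ℝ)) :=
  HilbertBasis.mkOfOrthogonalEqBot orthonormal_e e_complete

theorem b0_apply (i : idx) : b0 i = e i := by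
  unfold b0
  rw [HilbertBasis.coe_mkOfOrthogonalEqBot]

/-- the Fourier transform on `L²(ℝ)` -/
noncomputable def FT : Lp ℂ 2 (volume : Measure ℝ) ≃ₗᵢ[ℂ] Lp ℂ 2 (volume : Measure ℝ) :=
  Lp.fourierTransformₗᵢ ℝ ℂ

/-- the Hilbert basis on the time side -/
noncomputable def b1 : HilbertBasis idx ℂ (Lp ℂ 2 (volume : Measure ℝ)) :=
  HilbertBasis.ofRepr (FT.trans b0.repr)

theorem b1_apply (i : idx) : b1 i = FT.symm (e i) := by
  rw [← b0_apply, ← HilbertBasis.repr_symm_single, ← HilbertBasis.repr_symm_single]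
  rfl

/-- the operator mapping the orthonormal basis to the wavelet system -/
noncomputable def T : Lp ℂ 2 (volume : Measure ℝ) ≃L[ℂ] Lp ℂ 2 (volume : Measure ℝ) :=
  (FT.toContinuousLinearEquiv.trans foldEquiv).trans FT.symm.toContinuousLinearEquiv

/-- the wavelet system -/
noncomputable def F (i : idx) : Lp ℂ 2 (volume : Measure ℝ) := FT.symm (foldEquiv (e i))

theorem isRieszBasis_F : IsRieszBasis F := by
  refine ⟨b1, T, fun i => ?_⟩
  rw [b1_apply]
  simp [T, F]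

theorem foldEquiv_e (i : idx) : foldEquiv (e i) =
    (memLp_B measurableSet_Om volume_Om_lt.ne (i.2.1 : ℝ) (i.2.2 : ℝˣ).ne_zero 2).toLp := by
  obtain ⟨i0, ⟨l, ⟨n, hn⟩⟩, a⟩ := i
  simp only at hn
  subst hn
  rw [foldEquiv_apply]
  apply Lp.ext
  have h3 := MemLp.coeFn_toLp (memLp_B (measurableSet_Ico (a := (1 : ℝ)) (b := 2)) (by simp)
      (n : ℝ) (a : ℝˣ).ne_zero 2)
  have h4 := MemLp.coeFn_toLp (memLp_B measurableSet_Om volume_Om_lt.ne
      (n : ℝ) (a : ℝˣ).ne_zero 2)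
  refine (Lp.coeFn_add _ _).trans ?_
  refine Filter.EventuallyEq.trans ?_ h4.symm
  have h5 := (fold_coe (e ⟨i0, ⟨(n : ℝ), ⟨n, rfl⟩⟩, a⟩)).trans (fold_congr h3)
  filter_upwards [h3, h5] with ξ hξ hξ'
  rw [Pi.add_apply, hξ', ← fold_B n a.2 ξ]
  congr 1

theorem isWaveletSystem_F : IsWaveletSystem (fun _ : Fin 1 => Om) Dil (fun _ => Lam) F := by
  have hind : MemLp (Om.indicator fun _ => (1 : ℂ)) 2 volume :=
    memLp_indicator_const 2 measurableSet_Om 1 (Or.inr volume_Om_lt.ne)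
  have hind1 : Integrable (Om.indicator fun _ => (1 : ℂ)) :=
    memLp_one_iff_integrable.mp
      (memLp_indicator_const 1 measurableSet_Om 1 (Or.inr volume_Om_lt.ne))
  refine ⟨fun _ => 𝓕⁻ (hind.toLp : Lp ℂ 2 (volume : Measure ℝ)), fun i => ?_, fun i l a => ?_⟩
  · rw [FourierTransform.fourier_fourierInv_eq]
    exact hind.coeFn_toLp
  · have h1 := fourierInv_toLp_ae hind1 hind
    have ha0 : ((a : ℝˣ) : ℝ) ≠ 0 := (a : ℝˣ).ne_zero
    have hB := fourierInv_toLp_ae (integrable_B measurableSet_Om volume_Om_lt.ne (l : ℝ) ha0)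
      (memLp_B measurableSet_Om volume_Om_lt.ne (l : ℝ) ha0 2)
    have h2 : F ⟨i, (l, a)⟩ = 𝓕⁻ ((memLp_B measurableSet_Om volume_Om_lt.ne (l : ℝ) ha0 2).toLp :
        Lp ℂ 2 (volume : Measure ℝ)) := by
      unfold F
      rw [foldEquiv_e]
      rfl
    rw [h2]
    refine hB.trans ?_
    have hq : Measure.QuasiMeasurePreserving (fun x : ℝ => ((a : ℝˣ) : ℝ) * x - l) volume volume :=
      (measurePreserving_sub_right volume (l : ℝ)).quasiMeasurePreserving.comp (quasi_mul ha0)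
    have h3 := hq.ae_eq_comp h1
    filter_upwards [h3] with x hx
    rw [fourierInv_B Om (l : ℝ) ha0 x]
    unfold waveletFun
    congr 1
    exact hx.symm

theorem one_mem_Dil : (1 : ℝˣ) ∈ Dil := ⟨0, Or.inl (by simp)⟩

theorem not_orthogonal_F : ¬ Pairwise fun i j => inner ℂ (F i) (F j) = 0 := by
  intro h
  set i : idx := ⟨0, ⟨(0 : ℝ), ⟨0, by simp⟩⟩, ⟨1, one_mem_Dil⟩⟩ with hi
  set j : idx := ⟨0, ⟨(0 : ℝ), ⟨0, by simp⟩⟩, ⟨-1, neg_mem_Dil one_mem_Dil⟩⟩ with hj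
  have hij : i ≠ j := by
    intro h0
    rw [hi, hj] at h0
    simp at h0
  have h1 := h hij
  simp only at h1
  unfold F at h1
  rw [LinearIsometryEquiv.inner_map_map, foldEquiv_e, foldEquiv_e, toLp_inner] at h1
  have h2 : ∀ ξ : ℝ, (starRingEnd ℂ) (B Om (i.2.1 : ℝ) (i.2.2 : ℝˣ) ξ) *
      B Om (j.2.1 : ℝ) (j.2.2 : ℝˣ) ξ = (Om ∩ (fun ξ : ℝ => -ξ) ⁻¹' Om).indicator
        (fun _ => (1 : ℂ)) ξ := by
    intro ξ
    simp only [hi, hj, B]
    by_cases h3 : ξ ∈ Om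
    · by_cases h4 : -ξ ∈ Om
      · rw [Set.indicator_of_mem (show ξ ∈ Om ∩ (fun ξ : ℝ => -ξ) ⁻¹' Om from ⟨h3, h4⟩)]
        simp [h3, h4, div_neg]
      · rw [Set.indicator_of_notMem (s := Om ∩ (fun ξ : ℝ => -ξ) ⁻¹' Om) (fun h5 => h4 h5.2)]
        simp [h4, div_neg]
    · rw [Set.indicator_of_notMem (s := Om ∩ (fun ξ : ℝ => -ξ) ⁻¹' Om) (fun h5 => h3 h5.1)]
      simp [h3]
  simp_rw [h2] at h1
  have hm : MeasurableSet (Om ∩ (fun ξ : ℝ => -ξ) ⁻¹' Om) :=
    measurableSet_Om.inter (measurableSet_preimage measurable_neg measurableSet_Om)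
  rw [integral_indicator hm, setIntegral_const] at h1
  simp only [Complex.real_smul, mul_one, Complex.ofReal_eq_zero] at h1
  have hpos : 0 < volume (Om ∩ (fun ξ : ℝ => -ξ) ⁻¹' Om) := by
    have hsub : Set.Ioo (3 / 2 : ℝ) 2 ⊆ Om ∩ (fun ξ : ℝ => -ξ) ⁻¹' Om := by
      intro x hx
      refine ⟨Or.inl ⟨by linarith [hx.1], hx.2⟩, Or.inr ⟨?_, ?_⟩⟩
      · linarith [hx.2]
      · linarith [hx.1]
    refine lt_of_lt_of_le ?_ (measure_mono hsub)
    rw [Real.volume_Ioo]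
    simp
    norm_num
  have hfin : volume (Om ∩ (fun ξ : ℝ => -ξ) ⁻¹' Om) ≠ ⊤ :=
    (lt_of_le_of_lt (measure_mono Set.inter_subset_left) volume_Om_lt).ne
  rw [measureReal_def, ENNReal.toReal_eq_zero_iff] at h1
  rcases h1 with h1 | h1
  · exact hpos.ne' h1
  · exact hfin h1

theorem image_mem_iff (a : ℝˣ) (S : Set ℝ) (ξ : ℝ) :
    ξ ∈ (fun η : ℝ => (a : ℝ) * η) '' S ↔ ξ / (a : ℝ) ∈ S := by
  have ha0 : (a : ℝ) ≠ 0 := a.ne_zero
  constructor
  · rintro ⟨η, hη, rfl⟩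
    simp only
    rwa [mul_div_cancel_left₀ η ha0]
  · intro h
    exact ⟨ξ / a, h, by simp only; rw [mul_div_cancel₀ ξ ha0]⟩

theorem mult_one {ξ : ℝ} (hξ : ξ ∈ Set.Ioo (1 : ℝ) (3 / 2)) :
    {a : ℝˣ | a ∈ Dil ∧ ξ ∈ (fun η : ℝ => (a : ℝ) * η) '' Om}.encard = 1 := by
  have : {a : ℝˣ | a ∈ Dil ∧ ξ ∈ (fun η : ℝ => (a : ℝ) * η) '' Om} = {1} := by
    ext a
    simp only [Set.mem_ofPred_eq, Set.mem_singleton_iff, image_mem_iff]
    have h1 : ξ / ((1 : ℝˣ) : ℝ) ∈ Set.Ico (1 : ℝ) 2 := by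
      simp only [Units.val_one, div_one]
      exact ⟨hξ.1.le, by linarith [hξ.2]⟩
    constructor
    · rintro ⟨ha, h2 | h2⟩
      · exact dil_unique ha one_mem_Dil h2 h1
      · exfalso
        have h3 : ξ / ((-a : ℝˣ) : ℝ) ∈ Set.Ico (1 : ℝ) 2 := by
          push_cast
          rw [div_neg]
          exact ⟨by linarith [h2.2], by linarith [h2.1]⟩
        have h4 := dil_unique (neg_mem_Dil ha) one_mem_Dil h3 h1
        have h5 : a = -1 := by rw [← h4, neg_neg]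
        rw [h5] at h2
        push_cast at h2
        rw [div_neg, div_one] at h2
        linarith [h2.2, hξ.2]
    · rintro rfl
      exact ⟨one_mem_Dil, Or.inl h1⟩
  rw [this, Set.encard_singleton]

theorem mult_two {ξ : ℝ} (hξ : ξ ∈ Set.Ioo (3 / 2 : ℝ) 2) :
    {a : ℝˣ | a ∈ Dil ∧ ξ ∈ (fun η : ℝ => (a : ℝ) * η) '' Om}.encard = 2 := by
  have : {a : ℝˣ | a ∈ Dil ∧ ξ ∈ (fun η : ℝ => (a : ℝ) * η) '' Om} = {1, -1} := by
    ext a
    simp only [Set.mem_ofPred_eq, Set.mem_insert_iff, Set.mem_singleton_iff, image_mem_iff]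
    have h1 : ξ / ((1 : ℝˣ) : ℝ) ∈ Set.Ico (1 : ℝ) 2 := by
      simp only [Units.val_one, div_one]
      exact ⟨by linarith [hξ.1], hξ.2⟩
    constructor
    · rintro ⟨ha, h2 | h2⟩
      · left
        exact dil_unique ha one_mem_Dil h2 h1
      · right
        have h3 : ξ / ((-a : ℝˣ) : ℝ) ∈ Set.Ico (1 : ℝ) 2 := by
          push_cast
          rw [div_neg]
          exact ⟨by linarith [h2.2], by linarith [h2.1]⟩
        have h4 := dil_unique (neg_mem_Dil ha) one_mem_Dil h3 h1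
        rw [← h4, neg_neg]
    · rintro (rfl | rfl)
      · exact ⟨one_mem_Dil, Or.inl h1⟩
      · refine ⟨neg_mem_Dil one_mem_Dil, Or.inr ?_⟩
        push_cast
        rw [div_neg, div_one]
        exact ⟨by linarith [hξ.2], by linarith [hξ.1]⟩
  rw [this, Set.encard_pair]
  intro h
  have h1 := congrArg (fun u : ℝˣ => (u : ℝ)) h
  simp at h1
  norm_num at h1

theorem not_tiling (k : ℕ) : ¬ IsMultiplicativeTiling Om Dil k := by
  intro h
  have exists_pt : ∀ u v : ℝ, u < v → ∃ ξ ∈ Set.Ioo u v,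
      {a : ℝˣ | a ∈ Dil ∧ ξ ∈ (fun η : ℝ => (a : ℝ) * η) '' Om}.encard = k := by
    intro u v huv
    by_contra hcon
    push Not at hcon
    unfold IsMultiplicativeTiling at h
    rw [ae_iff] at h
    have h1 : volume (Set.Ioo u v) ≤ 0 := by
      rw [← h]
      exact measure_mono fun ξ hξ => hcon ξ hξ
    rw [Real.volume_Ioo, nonpos_iff_eq_zero, ENNReal.ofReal_eq_zero] at h1
    linarith
  obtain ⟨ξ1, h1, h1'⟩ := exists_pt 1 (3 / 2) (by norm_num)
  obtain ⟨ξ2, h2, h2'⟩ := exists_pt (3 / 2) 2 (by norm_num)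
  rw [mult_one h1] at h1'
  rw [mult_two h2] at h2'
  rw [← h1'] at h2'
  norm_num at h2'

/-- **Main theorem.**  For `G = ℝ`, `m = 1`, `Ω = [1,2) ∪ (-2,-3/2)`, `A = {±2^j}` and `Λ = ℤ` the
wavelet system is a non-orthogonal Riesz basis of `L²(ℝ)`, but for no integer `k` do the dilates
`a Ω`, `a ∈ A`, tile `ℝ` multiplicatively with multiplicity `k`. -/
theorem result :
    ∃ (Ω : Fin 1 → Set ℝ) (A : Set ℝˣ) (Λ : Fin 1 → Set ℝ)
      (F : (Σ i : Fin 1, Λ i × A) → Lp ℂ 2 (volume : Measure ℝ)),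
      Ω = (fun _ => Set.Ico 1 2 ∪ Set.Ioo (-2) (-(3 / 2))) ∧
      A = {a : ℝˣ | ∃ j : ℤ, (a : ℝ) = 2 ^ j ∨ (a : ℝ) = -2 ^ j} ∧
      Λ = (fun _ => Set.range fun n : ℤ => (n : ℝ)) ∧
      (∀ i, MeasurableSet (Ω i)) ∧ (∀ i, 0 < volume (Ω i)) ∧ (∀ i, volume (Ω i) < ⊤) ∧
      (Pairwise fun i j => Disjoint (Ω i) (Ω j)) ∧ A.Countable ∧ (∀ i, (Λ i).Countable) ∧
      IsWaveletSystem Ω A Λ F ∧ IsRieszBasis F ∧
      (¬ Pairwise fun i j => inner ℂ (F i) (F j) = 0) ∧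
      ∀ k : ℕ, ¬ IsMultiplicativeTiling (⋃ i, Ω i) A k := by
  refine ⟨fun _ => Om, Dil, fun _ => Lam, F, rfl, rfl, rfl, fun _ => measurableSet_Om,
    fun _ => volume_Om_pos, fun _ => volume_Om_lt, ?_, countable_Dil, fun _ => ?_,
    isWaveletSystem_F, isRieszBasis_F, not_orthogonal_F, ?_⟩
  · intro i j hij
    exact absurd (Subsingleton.elim i j) hij
  · exact Set.countable_range _
  · intro k
    rw [Set.iUnion_const]
    exact not_tiling k

end Pool.Agent.Results.MP_38bcdd_an.RieszWaveletNotMultiTiling
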